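import Pool.Agent.Helper59.AN.Goals

open MeasureTheory
open scoped ENNReal

namespace AN.PkFNC

lemma geo_pos (n : ℕ) : NU.geo {n} ≠ 0 := by
  intro h
  rw [NU.geo, Measure.sum_apply _ (measurableSet_singleton n)] at h
  rw [ENNReal.tsum_eq_zero] at h
  have h1 := h n
  rw [Measure.smul_apply, Measure.dirac_apply' _ (measurableSet_singleton n)] at h1
  simp at h1

theorem fnc : G_FNC := by
  intro K ι u c h
  classical
  let μ : Measure (K → ℕ) := Measure.infinitePi fun _ : K => NU.geo
  have hC : ∀ i, {ω : K → ℕ | ∀ k ∈ u i, ω k = c i k} = (u i : Set K).pi fun k => {c i k} := by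
    intro i
    ext ω
    simp [Set.mem_pi]
  have hm : ∀ i, MeasurableSet ((u i : Set K).pi fun k => ({c i k} : Set ℕ)) := fun i =>
    MeasurableSet.pi (u i).countable_toSet fun k _ => measurableSet_singleton _
  have hd : Pairwise (Function.onFun Disjoint fun i =>
      ((u i : Set K).pi fun k => ({c i k} : Set ℕ))) := by
    intro i j hij
    obtain ⟨k, hi, hj, hk⟩ := h i j hij
    rw [Function.onFun, Set.disjoint_left]
    intro ω h1 h2
    have e1 := h1 k (Finset.mem_coe.2 hi)
    have e2 := h2 k (Finset.mem_coe.2 hj)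
    exact hk ((Set.mem_singleton_iff.1 e1).symm.trans (Set.mem_singleton_iff.1 e2))
  have hp : ∀ i, 0 < μ ((u i : Set K).pi fun k => ({c i k} : Set ℕ)) := by
    intro i
    have : μ ((u i : Set K).pi fun k => ({c i k} : Set ℕ)) = ∏ k ∈ u i, NU.geo {c i k} :=
      Measure.infinitePi_pi _ (fun k _ => measurableSet_singleton _)
    rw [this]
    exact pos_iff_ne_zero.2 (Finset.prod_ne_zero_iff.2 fun k _ => geo_pos _)
  have hcount := Measure.countable_meas_pos_of_disjoint_iUnion (μ := μ) hm hd
  have : {i | 0 < μ ((u i : Set K).pi fun k => ({c i k} : Set ℕ))} = Set.univ := by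
    ext i; simp [hp i]
  rw [this] at hcount
  exact Set.countable_univ_iff.1 hcount

end AN.PkFNC
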